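import Pool.Agent.H55.Rad3

set_option autoImplicit false

namespace Pool.Agent.Results.MP_8d7c8e_an.Decreasing

open MeasureTheory Filter Topology Pool.Agent.H55.RadDefs

theorem result : ∃ f : (ℕ → UnitAddCircle) → ℂ, Measurable f ∧ IsHinf f ∧
    ∃ r : ℕ → ℕ → ℝ, (∀ k n, 0 ≤ r k n ∧ r k n < 1) ∧
      (∀ n, Tendsto (fun k => r k n) atTop (𝓝 1)) ∧ (∀ k n, r k (n + 1) ≤ r k n) ∧
      (∀ k, ∃ m, ∀ n, m ≤ n → r k n = 0) ∧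
      ∀ᵐ θ ∂mT, ‖f θ‖ = 1 ∧ (∀ δ > 0, ∃ᶠ k in atTop, ‖rad f (r k) θ‖ < δ) ∧
        ¬ Tendsto (fun k => rad f (r k) θ) atTop (𝓝 (f θ)) := by
  obtain ⟨f, fm, fH, f1, r, r0, r1, r2, r3, h⟩ := Pool.Agent.H55.Rad.main
  refine ⟨f, fm, fH, r, r0, r3, fun k n => r1 k n.le_succ, r2, ?_⟩
  filter_upwards [f1, h] with θ h1 h2
  refine ⟨h1, h2, fun c => ?_⟩
  obtain ⟨k, h3, h4⟩ := ((h2 _ one_half_pos).and_eventually
    (c.norm.eventually (lt_mem_nhds (one_half_lt_one.trans_eq h1.symm)))).exists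
  exact h3.not_gt h4

end Pool.Agent.Results.MP_8d7c8e_an.Decreasing
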